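import Pool.Agent.MDF.Code
import Pool.Agent.MDF.Complete
import Pool.Agent.MDF.SoundF

/-!
# The monoid decomposition problem is fixed-parameter tractable in the dimension

One Turing machine decides for every integer matrix `A`, all integer vectors `b` and `a` whether
`a` is a sum of elements of `S = {z | 0 ≤ z, A z ≤ b}` (with repetitions) in at most
`f d * (L + 1) ^ k` steps, where `L` is the length of the binary code of `(A, b, a)` and `d` is the
number of columns of `A`; `f` is computable and `k` is a constant.
-/

set_option autoImplicit false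

namespace Pool.Agent.Results.MP_3a3592_lc.FPT

open Turing Matrix Pool.Agent.MDF

open Classical in
/-- **The monoid decomposition problem is fixed-parameter tractable.** -/
theorem result :
    ∃ (M : FinTM2) (e₀ : M.Γ M.k₀ ≃ Bool) (e₁ : M.Γ M.k₁ ≃ Bool) (f : ℕ → ℕ) (k : ℕ),
      Computable f ∧ ∀ (m d : ℕ) (A : Matrix (Fin m) (Fin d) ℤ) (b : Fin m → ℤ) (a : Fin d → ℤ),
        Nonempty (TM2OutputsInTime M ((codeInst A b a).map e₀.symm)
          (some ([decide (a ∈ AddSubmonoid.closure {z : Fin d → ℤ | 0 ≤ z ∧ A *ᵥ z ≤ b})].map
            e₁.symm))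
          (f d * ((codeInst A b a).length + 1) ^ k)) :=
  final_inst (decide_of sound_spec complete_spec)

end Pool.Agent.Results.MP_3a3592_lc.FPT
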